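import Pool.Agent.Run7.h900.MX.Stm

/-!
# Piece PN of project MX (helper900), by helper834: an open normal p-nilpotent subgroup
-/

set_option autoImplicit false
set_option linter.all false

universe u

namespace Run7.h834.MX

open Run7.h900.MX

section

variable {G : Type u} [Group G] [TopologicalSpace G] [IsTopologicalGroup G] [CompactSpace G]
  [T2Space G] [TotallyDisconnectedSpace G]

theorem finq (U : OpenNormalSubgroup G) : Finite (G ⧸ U.toSubgroup) :=
  Subgroup.quotient_finite_of_isOpen U.toSubgroup U.toOpenSubgroup.isOpen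

theorem pr_surj (U : OpenNormalSubgroup G) : Function.Surjective (pr U) :=
  QuotientGroup.mk'_surjective _

theorem pr_eq_one (U : OpenNormalSubgroup G) (x : G) : pr U x = 1 ↔ x ∈ U.toSubgroup :=
  QuotientGroup.eq_one_iff x

theorem open_of_le (U : OpenNormalSubgroup G) (D : Subgroup G) (h : U.toSubgroup ≤ D) :
    IsClosed (D : Set G) := by
  have h1 : IsOpen (D : Set G) := Subgroup.isOpen_mono h U.toOpenSubgroup.isOpen
  exact Subgroup.isClosed_of_isOpen D h1

/-- the case `U ≤ N` -/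
theorem small (hTATE : S_TATE.{u}) (p : ℕ) (hp : p.Prime) (P : Subgroup G) (hP : ProP p P)
    (hi : ∀ U : OpenNormalSubgroup G, ¬ p ∣ (P.map (pr U)).index) (N : OpenNormalSubgroup G)
    (hN : ∀ x : G, x ∈ N.toSubgroup → x ∈ P → x ∈ (Phi p P).topologicalClosure)
    (U : OpenNormalSubgroup G) (hU : U.toSubgroup ≤ N.toSubgroup) :
    PNil p (N.toSubgroup.map (pr U)) := by
  haveI := finq U
  refine hTATE (G ⧸ U.toSubgroup) p hp (P.map (pr U)) _ ?_ (hi U) ?_ ?_
  · rintro ⟨y, x, hx, rfl⟩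
    obtain ⟨k, hk⟩ := hP U x hx
    refine ⟨k, Subtype.ext ?_⟩
    show (pr U x) ^ p ^ k = 1
    rw [← map_pow, pr_eq_one]
    exact hk
  · exact N.isNormal'.map _ (pr_surj U)
  · rintro y ⟨⟨n, hn, hny⟩, ⟨x, hx, rfl⟩⟩
    have hxN : x ∈ N.toSubgroup := by
      have h1 : pr U (n⁻¹ * x) = 1 := by
        rw [map_mul, map_inv, hny, inv_mul_cancel]
      rw [pr_eq_one] at h1
      have h2 := N.toSubgroup.mul_mem hn (hU h1)
      rwa [mul_inv_cancel_left] at h2
    have h3 := hN x hxN hx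
    have h4 : (Phi p P).topologicalClosure ≤ (Phi p (P.map (pr U))).comap (pr U) := by
      apply Subgroup.topologicalClosure_minimal
      · rw [Phi, Subgroup.closure_le]
        rintro z (⟨a, ha, rfl⟩ | ⟨a, ha, b, hb, rfl⟩)
        · show pr U (a ^ p) ∈ Phi p (P.map (pr U))
          exact Subgroup.subset_closure (Or.inl ⟨pr U a, ⟨a, ha, rfl⟩, map_pow _ _ _⟩)
        · show pr U (a * b * a⁻¹ * b⁻¹) ∈ Phi p (P.map (pr U))
          refine Subgroup.subset_closure (Or.inr ⟨pr U a, ⟨a, ha, rfl⟩, pr U b, ⟨b, hb, rfl⟩, ?_⟩)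
          simp only [map_mul, map_inv]
      · apply open_of_le U
        intro z hz
        show pr U z ∈ Phi p (P.map (pr U))
        rw [(pr_eq_one U z).2 hz]
        exact one_mem _
    exact h4 h3

/-- passing to a larger subgroup -/
theorem large (p : ℕ) (N : Subgroup G) (W U : OpenNormalSubgroup G)
    (hWU : W.toSubgroup ≤ U.toSubgroup) (h : PNil p (N.map (pr W))) : PNil p (N.map (pr U)) := by
  haveI := finq W
  obtain ⟨K, hK1, hK2, hK3, hK4⟩ := h
  let φ : G ⧸ W.toSubgroup →* G ⧸ U.toSubgroup :=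
    QuotientGroup.map W.toSubgroup U.toSubgroup (MonoidHom.id G) hWU
  have hφ : ∀ x, φ (pr W x) = pr U x := fun x => rfl
  have hφs : Function.Surjective φ := fun y => by
    obtain ⟨x, rfl⟩ := pr_surj U y
    exact ⟨pr W x, rfl⟩
  refine ⟨K.map φ, hK1.map φ hφs, ?_, ?_, ?_⟩
  · rintro y ⟨k, hk, rfl⟩
    obtain ⟨n, hn, rfl⟩ := hK2 hk
    exact ⟨n, hn, rfl⟩
  · intro hd
    exact hK3 (hd.trans (Subgroup.card_map_dvd K φ))
  · rintro y ⟨n, hn, rfl⟩
    obtain ⟨k, hk⟩ := hK4 (pr W n) ⟨n, hn, rfl⟩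
    refine ⟨k, (pr W n) ^ p ^ k, hk, ?_⟩
    rw [map_pow]
    rfl

end

theorem t_PN : S_SYL.{u} → S_FRAT.{u} → S_TATE.{u} → S_PN.{u} := by
  intro hSYL hFRAT hTATE G _ _ _ _ _ _ hmax p hp
  obtain ⟨P, hP1, hP2⟩ := hSYL G ⊥ ⊤ isClosed_univ
    (fun t _ x _ => Subgroup.mem_top _)
    (fun U => by
      rw [Subgroup.map_bot]
      infer_instance)
    (fun U => by
      rw [Subgroup.map_bot, Subgroup.card_bot]
      exact Nat.coprime_one_left _)
    p hp
  obtain ⟨N, hN⟩ := hFRAT G hmax p hp P hP1.1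
  have hi : ∀ U : OpenNormalSubgroup G, ¬ p ∣ (P.map (pr U)).index := by
    intro U hd
    apply hP1.2.2.2 U
    rw [Subgroup.map_top_of_surjective _ (pr_surj U), Subgroup.relIndex_top_right]
    exact hd
  refine ⟨N, fun U => ?_⟩
  have h1 := small hTATE p hp P hP2 hi N hN (U ⊓ N) inf_le_right
  exact large p N.toSubgroup (U ⊓ N) U inf_le_left h1

end Run7.h834.MX
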